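import Pool.Agent.Helper20.FR.Spec

/-! FR P1: rational growth from a shift identity. -/

open Polynomial Filter

namespace Pool.Agent.Helper31.FR

open Pool.Agent.Helper20.FR

theorem fs_thm : S_FS := by
  intro r hr a i P hP h
  have hr1 : (1 : ℝ) < r := by exact_mod_cast (by omega : 1 < r)
  have hr0 : (r : ℝ) ≠ 0 := by positivity
  have hrP : (1 : ℝ) < (r : ℝ) ^ P := one_lt_pow₀ hr1 (by omega)
  have hrP' : (r : ℝ) ^ P - 1 ≠ 0 := by linarith
  refine ⟨((a (i + P) - a i : ℤ) : ℚ) / ((r : ℚ) ^ i * ((r : ℚ) ^ P - 1)), ?_⟩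
  set g : ℚ := ((a (i + P) - a i : ℤ) : ℚ) / ((r : ℚ) ^ i * ((r : ℚ) ^ P - 1)) with hg
  have hgR : (g : ℝ) * ((r : ℝ) ^ i * ((r : ℝ) ^ P - 1)) = ((a (i + P) : ℝ) - (a i : ℝ)) := by
    rw [hg]
    push_cast
    field_simp
  set b : ℕ → ℝ := fun j => (a j : ℝ) - (g : ℝ) * (r : ℝ) ^ j with hb
  have hper : ∀ j, i ≤ j → b (j + P) = b j := by
    intro j hj
    obtain ⟨l, rfl⟩ := Nat.exists_eq_add_of_le hj
    have h1 := h l
    have h2 : (a (i + P + l) : ℝ) - (a (i + l) : ℝ) = (r : ℝ) ^ l * ((a (i + P) : ℝ) - (a i : ℝ)) := by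
      exact_mod_cast h1
    have h3 : i + l + P = i + P + l := by ring
    simp only [hb]
    rw [h3]
    have h4 : (g : ℝ) * (r : ℝ) ^ (i + P + l) - (g : ℝ) * (r : ℝ) ^ (i + l) =
        (r : ℝ) ^ l * ((g : ℝ) * ((r : ℝ) ^ i * ((r : ℝ) ^ P - 1))) := by
      rw [pow_add, pow_add, pow_add]; ring
    rw [hgR] at h4
    linarith
  refine ⟨∑ j ∈ Finset.range (i + P), |b j|, ?_⟩
  intro j
  change |b j| ≤ _
  induction j using Nat.strong_induction_on with
  | _ j ih =>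
    by_cases hj : j < i + P
    · exact Finset.single_le_sum (f := fun j => |b j|) (fun _ _ => abs_nonneg _)
        (Finset.mem_range.2 hj)
    · have h5 : j = (j - P) + P := by omega
      rw [h5, hper _ (by omega)]
      exact ih _ (by omega)

end Pool.Agent.Helper31.FR
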