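import Pool.Agent.Helper20.FR.Spec
import Pool.Agent.Helper31.FR.P1

/-! FR P2: rational growth of the degree of a Frobenius-linear recursion. -/

open Polynomial Filter

namespace Pool.Agent.Helper31.FR

open Pool.Agent.Helper20.FR

universe u

section

variable {k : Type u} [Field k] {F : Type} [Fintype F]

lemma vdeg_eq_of {v : F → LaurentSeries k} (hv : v ≠ 0) {d : ℤ} (h : VLe v d) {f : F}
    (hf : v f ≠ 0) (hd : dg (v f) = d) : vdeg v = d := by
  apply le_antisymm
  · have := (VLe_iff hv).1 h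
    exact_mod_cast this
  · have h1 := (DLe_iff hf).1 (VLe_self v f)
    rw [hd] at h1
    exact_mod_cast h1

lemma smul_ne {v : F → LaurentSeries k} (hv : v ≠ 0) (m : ℤ) : (fun f => Tz m * v f) ≠ 0 := by
  obtain ⟨f, hf⟩ := Function.ne_iff.1 hv
  exact Function.ne_iff.2 ⟨f, mul_ne_zero (Tz_ne_zero m) hf⟩

lemma VLe_smul {v : F → LaurentSeries k} {d : ℝ} (hv : VLe v d) (m : ℤ) :
    VLe (fun f => Tz m * v f) (m + d) := by
  intro f
  have h1 : DLe (Tz m : LaurentSeries k) m := by
    have := DLe_self (Tz m : LaurentSeries k)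
    rwa [dg_Tz] at this
  exact h1.mul (hv f)

lemma vdeg_smul {v : F → LaurentSeries k} (hv : v ≠ 0) (m : ℤ) :
    vdeg (fun f => Tz m * v f) = m + vdeg v := by
  obtain ⟨f, hf, hd⟩ := exists_dg_eq_vdeg hv
  refine vdeg_eq_of (f := f) (smul_ne hv m) ?_ (mul_ne_zero (Tz_ne_zero m) hf) ?_
  · have := VLe_smul (VLe_self v) m
    push_cast
    exact this
  · rw [dg_mul (Tz_ne_zero m) hf, dg_Tz, hd]

lemma pow_ne {v : F → LaurentSeries k} (hv : v ≠ 0) (r : ℕ) : (fun f => v f ^ r) ≠ 0 := by
  obtain ⟨f, hf⟩ := Function.ne_iff.1 hv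
  exact Function.ne_iff.2 ⟨f, pow_ne_zero r hf⟩

lemma vdeg_pow {v : F → LaurentSeries k} (hv : v ≠ 0) (r : ℕ) :
    vdeg (fun f => v f ^ r) = r * vdeg v := by
  obtain ⟨f, hf, hd⟩ := exists_dg_eq_vdeg hv
  refine vdeg_eq_of (f := f) (pow_ne hv r) ?_ (pow_ne_zero r hf) ?_
  · intro g
    have := (VLe_self v g).pow r
    push_cast
    exact this
  · rw [dg_pow, hd]

/-- vector version of the ultrametric inequality -/
lemma vdeg_eq_of_sub {z w : F → LaurentSeries k} (hz : z ≠ 0) {d : ℝ} (h : VLe (z - w) d)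
    (hd : d < vdeg z) : w ≠ 0 ∧ vdeg w = vdeg z := by
  have hw : w ≠ 0 := by
    rintro rfl
    rw [sub_zero, VLe_iff hz] at h
    linarith
  refine ⟨hw, le_antisymm ?_ ?_⟩
  · have h1 : VLe w (vdeg z) := by
      have : w = z - (z - w) := by ring
      rw [this]
      exact (VLe_self z).sub (h.mono hd.le)
    have := (VLe_iff hw).1 h1
    exact_mod_cast this
  · by_contra hlt
    push Not at hlt
    have h1 : VLe z (max d (vdeg w)) := by
      have : z = (z - w) + w := by ring
      rw [this]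
      exact (h.mono (le_max_left _ _)).add ((VLe_self w).mono (le_max_right _ _))
    have h2 := (VLe_iff hz).1 h1
    have h3 : (vdeg w : ℝ) < vdeg z := by exact_mod_cast hlt
    rcases le_max_iff.1 h2 with h4 | h4 <;> linarith

/-- normalised vector -/
noncomputable def nv (v : F → LaurentSeries k) : F → LaurentSeries k := fun f => Tz (-vdeg v) * v f

lemma nv_ne {v : F → LaurentSeries k} (hv : v ≠ 0) : nv v ≠ 0 := smul_ne hv _

lemma vdeg_nv {v : F → LaurentSeries k} (hv : v ≠ 0) : vdeg (nv v) = 0 := by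
  change vdeg (fun f => Tz (-vdeg v) * v f) = 0
  rw [vdeg_smul hv]; ring

end

section

variable {k : Type u} [Field k] {p : ℕ} [Fact p.Prime] [CharP k p]
  {F : Type} [Fintype F]

/-- `B (w^r)` for the normalised vector -/
lemma mulVec_nv (B : Matrix F F (LaurentSeries k)) (r : ℕ) (v : F → LaurentSeries k) :
    B.mulVec (fun f => nv v f ^ r) = fun f => Tz (-(r * vdeg v)) * B.mulVec (fun f => v f ^ r) f := by
  have h : (fun f => nv v f ^ r) = (Tz (-(r * vdeg v)) : LaurentSeries k) • fun f => v f ^ r := by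
    funext f
    simp only [nv, mul_pow, Tz_pow, Pi.smul_apply, smul_eq_mul]
    congr 2
    ring
  rw [h, Matrix.mulVec_smul]
  rfl

lemma step (s : ℕ) (hr : 2 ≤ p ^ s) {B B' : Matrix F F (LaurentSeries k)} {b : ℕ}
    (hB : MLe B b) (hB' : MLe B' b) {v v' u u' : F → LaurentSeries k}
    (hv : v ≠ 0) (hu : u ≠ 0) (hu' : u' ≠ 0)
    (h1 : u = B.mulVec fun f => v f ^ p ^ s) (h2 : B'.mulVec u = fun f => v f ^ p ^ s)
    (h1' : u' = B.mulVec fun f => v' f ^ p ^ s)
    (hd : VLe (nv v - nv v') (-(2 * b + 1))) :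
    VLe (nv u - nv u') (-(2 * b + 1)) ∧
      vdeg u' - (p ^ s : ℕ) * vdeg v' = vdeg u - (p ^ s : ℕ) * vdeg v := by
  set r : ℕ := p ^ s with hrdef
  have hrR : (2 : ℝ) ≤ r := by exact_mod_cast hr
  set z : F → LaurentSeries k := B.mulVec (fun f => nv v f ^ r) with hz
  set z' : F → LaurentSeries k := B.mulVec (fun f => nv v' f ^ r) with hz'
  have hzu : z = fun f => Tz (-(r * vdeg v)) * u f := by rw [hz, mulVec_nv, ← h1]
  have hzu' : z' = fun f => Tz (-(r * vdeg v')) * u' f := by rw [hz', mulVec_nv, ← h1']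
  have hz0 : z ≠ 0 := by rw [hzu]; exact smul_ne hu _
  have hz0' : z' ≠ 0 := by rw [hzu']; exact smul_ne hu' _
  have hzd : vdeg z = vdeg u - r * vdeg v := by rw [hzu, vdeg_smul hu]; ring
  have hzd' : vdeg z' = vdeg u' - r * vdeg v' := by rw [hzu', vdeg_smul hu']; ring
  -- difference
  have hdiff : VLe (z - z') (b - r * (2 * b + 1)) := by
    have e1 : z - z' = B.mulVec (fun f => (nv v - nv v') f ^ r) := by
      rw [hz, hz', ← Matrix.mulVec_sub]
      congr 1
      funext f
      simp only [Pi.sub_apply]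
      rw [hrdef, sub_pow_r]
    rw [e1]
    have e2 : VLe (fun f => (nv v - nv v') f ^ r) (r * (-(2 * b + 1))) := fun f => (hd f).pow r
    have := VLe.mulVec hB e2
    refine this.mono (le_of_eq ?_)
    ring
  -- lower bound
  have hlow : (-(b : ℝ)) ≤ vdeg z := by
    have e1 : B'.mulVec z = fun f => nv v f ^ r := by
      have e0 : z = (Tz (-(r * vdeg v)) : LaurentSeries k) • u := by rw [hzu]; rfl
      rw [e0, Matrix.mulVec_smul, h2]
      funext f
      simp only [nv, mul_pow, Tz_pow, Pi.smul_apply, smul_eq_mul]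
      congr 2
      ring
    have e2 : VLe (B'.mulVec z) (b + vdeg z) := VLe.mulVec hB' (VLe_self z)
    rw [e1, VLe_iff (pow_ne (nv_ne hv) r), vdeg_pow (nv_ne hv), vdeg_nv hv] at e2
    push_cast at e2
    linarith
  have hbn : (0 : ℝ) ≤ b := by positivity
  have hlt : (b : ℝ) - r * (2 * b + 1) < vdeg z := by
    have : (2 : ℝ) * (2 * b + 1) ≤ r * (2 * b + 1) := by gcongr
    linarith
  obtain ⟨-, heq⟩ := vdeg_eq_of_sub hz0 hdiff hlt
  refine ⟨?_, ?_⟩
  · have e3 : nv u - nv u' = fun f => Tz (-vdeg z) * (z - z') f := by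
      funext f
      simp only [Pi.sub_apply, mul_sub]
      have e4 : Tz (-vdeg z) * z f = nv u f := by
        rw [nv, hzd]
        simp only [hzu]
        rw [← mul_assoc, ← Tz_add]
        congr 2
        ring
      have e5 : Tz (-vdeg z) * z' f = nv u' f := by
        rw [← heq, nv, hzd']
        simp only [hzu']
        rw [← mul_assoc, ← Tz_add]
        congr 2
        ring
      rw [e4, e5]
    rw [e3]
    refine (VLe_smul hdiff _).mono ?_
    have : (2 : ℝ) * (2 * b + 1) ≤ r * (2 * b + 1) := by gcongr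
    push_cast
    linarith
  · rw [← hzd, ← hzd', heq]

end

theorem kp_thm : S_KP.{u} := by
  intro k _ _ p _ _ s hs F _ _ B B' v h1 h2 h0
  have hr : 2 ≤ p ^ s := by
    have hp : 2 ≤ p := (Fact.out : p.Prime).two_le
    calc 2 ≤ p := hp
      _ = p ^ 1 := (pow_one p).symm
      _ ≤ p ^ s := Nat.pow_le_pow_right (by omega) hs
  have hne : ∀ j, v j ≠ 0 := by
    intro j
    induction j with
    | zero => exact h0
    | succ j ih =>
      intro hz
      have e := h2 j
      rw [hz, Matrix.mulVec_zero] at e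
      exact pow_ne ih (p ^ s) e.symm
  refine ⟨hne, ?_⟩
  obtain ⟨b1, hb1⟩ := exists_MLe B
  obtain ⟨b2, hb2⟩ := exists_MLe B'
  set b : ℕ := max b1 b2 with hb
  have hB : MLe B b := fun i j => (hb1 i j).mono (by exact_mod_cast le_max_left _ _)
  have hB' : MLe B' b := fun i j => (hb2 i j).mono (by exact_mod_cast le_max_right _ _)
  -- pigeonhole
  let D : ℕ → F → Fin (2 * b + 1) → k := fun j f n => (nv (v j) f).coeff ((n : ℕ) : ℤ)
  obtain ⟨i0, j0, hij, hD⟩ := Finite.exists_ne_map_eq_of_infinite D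
  have main : ∀ i j : ℕ, i < j → D i = D j → ∃ g : ℚ, RatGrowth (p ^ s) (fun j => vdeg (v j)) g := by
    intro i j hlt hD
    obtain ⟨P, rfl⟩ := Nat.exists_eq_add_of_lt hlt
    have hbase : VLe (nv (v i) - nv (v (i + P + 1))) (-(2 * b + 1)) := by
      intro f n hn
      rw [neg_neg] at hn
      have hn' : n < 2 * (b : ℤ) + 1 := by exact_mod_cast hn
      simp only [Pi.sub_apply, HahnSeries.coeff_sub]
      rcases lt_or_ge n 0 with hneg | hpos
      · have e1 : ∀ j, (nv (v j) f).coeff n = 0 := by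
          intro j
          have := VLe_self (nv (v j)) f n
          rw [vdeg_nv (hne j)] at this
          apply this
          simp only [Int.cast_zero, neg_zero]
          exact_mod_cast hneg
        rw [e1, e1, sub_zero]
      · obtain ⟨m, rfl⟩ : ∃ m : ℕ, n = m := ⟨n.toNat, by omega⟩
        have hm : m < 2 * b + 1 := by omega
        have := congrFun (congrFun hD f) ⟨m, hm⟩
        simp only [D] at this
        rw [this, sub_self]
    have hind : ∀ l, VLe (nv (v (i + l)) - nv (v (i + (P + 1) + l))) (-(2 * b + 1)) := by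
      intro l
      induction l with
      | zero => exact hbase
      | succ l ih =>
        exact (step s hr hB hB' (hne _) (hne _) (hne _) (h1 _) (h2 _) (h1 _) ih).1
    apply fs_thm (p ^ s) hr (fun j => vdeg (v j)) i (P + 1) (by omega)
    intro l
    induction l with
    | zero => simp
    | succ l ih =>
      have e := (step s hr hB hB' (hne _) (hne _) (hne _) (h1 _) (h2 _) (h1 _) (hind l)).2
      have e' : vdeg (v (i + (P + 1) + (l + 1))) - vdeg (v (i + (l + 1))) =
          (p ^ s : ℕ) * (vdeg (v (i + (P + 1) + l)) - vdeg (v (i + l))) := by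
        have e1 : i + (P + 1) + (l + 1) = i + (P + 1) + l + 1 := by ring
        have e2 : i + (l + 1) = i + l + 1 := by ring
        rw [e1, e2, mul_sub]
        linarith
      rw [e', ih, pow_succ]
      ring
  rcases lt_or_gt_of_ne hij with h | h
  · exact main i0 j0 h hD
  · exact main j0 i0 h hD.symm

end Pool.Agent.Helper31.FR
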